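import Pool.Agent.Helper82.SG.Main

set_option autoImplicit false

namespace Pool.Agent.Results.MP_ac6992_gt.SimpleEveryDimension

open Pool.Agent.Helper81.MCG

/-- There is a Cantor set `C` in the plane such that for every natural number `n` the mapping class
group of `ℝ² - C` has a simple non-amenable subgroup `H` with `dim Q(H)/Hom(H, ℝ) = n`; moreover `H`
contains a copy of the group of order automorphisms of `ℚ`. -/
theorem result : ∃ C : Set ℂ, IsCantorSet C ∧ ∀ n : ℕ, ∃ H : Subgroup (ExtMap C),
    (H : Set (ExtMap C)) ⊆ MapClasses C ∧ IsSimpleGroup H ∧ ¬ Amenable H ∧ dimQTilde H = n ∧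
      ∃ f : (ℚ ≃o ℚ) →* H, Function.Injective f :=
  Pool.Agent.Helper82.SG.main

end Pool.Agent.Results.MP_ac6992_gt.SimpleEveryDimension
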